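import Mathlib

/-!
# Lifting a homomorphism to `ZMod p` to a homomorphism to `ZMod (p ^ 2)`
-/

set_option autoImplicit false

namespace Pool.Agent.L5helper85.NfLow

open NumberField

/-- a prime of degree one over a prime not dividing the discriminant gives a homomorphism
to `ZMod (p ^ 2)` -/
theorem lift_hom (K : Type) [Field K] [NumberField K] {p : ℕ} (hp : p.Prime)
    (hd : (discr K).natAbs < p) (h : Nonempty (𝓞 K →+* ZMod p)) :
    Nonempty (𝓞 K →+* ZMod (p ^ 2)) := by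
  obtain ⟨φ⟩ := h
  have : Fact p.Prime := ⟨hp⟩
  have hsurj : Function.Surjective φ := by
    intro x
    obtain ⟨z, hz⟩ := ZMod.intCast_surjective x
    exact ⟨(z : 𝓞 K), by rw [map_intCast, hz]⟩
  set P : Ideal (𝓞 K) := RingHom.ker φ with hP
  have hPp : P.IsPrime := RingHom.ker_isPrime φ
  have hNP : Ideal.absNorm P = p := by
    rw [Ideal.absNorm_apply, Submodule.cardQuot_apply]
    have e := RingHom.quotientKerEquivOfSurjective hsurj
    have := Nat.card_congr e.toEquiv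
    rw [Nat.card_zmod] at this
    exact this
  have hNP2 : Ideal.absNorm (P ^ 2) = p ^ 2 := by rw [map_pow, hNP]
  have hpP : (p : 𝓞 K) ∈ P := by
    rw [hP, RingHom.mem_ker, map_natCast, ZMod.natCast_self]
  have hPbot : P ≠ ⊥ := by
    intro hb
    rw [hb, Ideal.absNorm_bot] at hNP
    exact hp.ne_zero hNP.symm
  -- unramified
  have hunr : (p : 𝓞 K) ∉ P ^ 2 := by
    intro hmem
    have h1 : P ^ 2 ∣ (Ideal.span {(p : ℤ)}).map (algebraMap ℤ (𝓞 K)) := by
      rw [Ideal.map_span, Set.image_singleton, Ideal.dvd_span_singleton]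
      simpa using hmem
    have hmax : (Ideal.span {(p : ℤ)}).IsMaximal := by
      have h2 : Prime (p : ℤ) := Nat.prime_iff_prime_int.1 hp
      exact ((Ideal.span_singleton_prime h2.ne_zero).2 h2).isMaximal (by
        rw [Ne, Ideal.span_singleton_eq_bot]
        exact h2.ne_zero)
    have h2 := pow_sub_one_dvd_differentIdeal (A := ℤ) (B := 𝓞 K) (p := Ideal.span {(p : ℤ)})
      P 2 (by
        rw [Ne, Ideal.span_singleton_eq_bot]
        exact_mod_cast hp.ne_zero) h1
    rw [show 2 - 1 = 1 from rfl, pow_one] at h2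
    have h3 : Ideal.absNorm P ∣ Ideal.absNorm (differentIdeal ℤ (𝓞 K)) := by
      obtain ⟨J, hJ⟩ := h2
      rw [hJ, map_mul]
      exact dvd_mul_right _ _
    rw [NumberField.absNorm_differentIdeal K, hNP] at h3
    have h4 : 0 < (discr K).natAbs := Int.natAbs_pos.2 (discr_ne_zero K)
    exact absurd (Nat.le_of_dvd h4 h3) (by omega)
  have hfin : Finite (𝓞 K ⧸ P ^ 2) :=
    Ideal.finiteQuotientOfFreeOfNeBot _ (pow_ne_zero 2 hPbot)
  let _ : Fintype (𝓞 K ⧸ P ^ 2) := Fintype.ofFinite _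
  have hcard : Fintype.card (𝓞 K ⧸ P ^ 2) = p ^ 2 := by
    rw [← hNP2, Ideal.absNorm_apply, Submodule.cardQuot_apply, Nat.card_eq_fintype_card]
  have hchar : CharP (𝓞 K ⧸ P ^ 2) (p ^ 2) := by
    obtain ⟨c, hc⟩ := CharP.exists (𝓞 K ⧸ P ^ 2)
    have h1 : c ∣ p ^ 2 := by
      rw [← CharP.cast_eq_zero_iff (𝓞 K ⧸ P ^ 2) c]
      have h2 : ((p : 𝓞 K)) ^ 2 ∈ P ^ 2 := Ideal.pow_mem_pow hpP 2
      have h3 := Ideal.Quotient.eq_zero_iff_mem.2 h2
      simpa using h3
    have h2 : ¬ c ∣ p := by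
      intro h3
      rw [← CharP.cast_eq_zero_iff (𝓞 K ⧸ P ^ 2) c] at h3
      apply hunr
      rw [← Ideal.Quotient.eq_zero_iff_mem]
      simpa using h3
    rw [Nat.dvd_prime_pow hp] at h1
    obtain ⟨k, hk, rfl⟩ := h1
    have h3 : k = 2 := by
      by_contra hne
      apply h2
      have : k ≤ 1 := by omega
      calc p ^ k ∣ p ^ 1 := pow_dvd_pow p this
        _ = p := pow_one p
    rw [h3] at hc
    exact hc
  exact ⟨((ZMod.ringEquiv (𝓞 K ⧸ P ^ 2) hcard).symm : (𝓞 K ⧸ P ^ 2) →+* ZMod (p ^ 2)).comp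
    (Ideal.Quotient.mk (P ^ 2))⟩

end Pool.Agent.L5helper85.NfLow
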