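import Pool.Agent.H484R2.Pit
import Pool.Agent.L5helper85.NfLow.Lift

/-!
# Many primes of degree one in short ranges
-/

set_option autoImplicit false

namespace Pool.Agent.L5helper85.NfLow

open NumberField Filter Topology H332.PIT

open scoped Classical in
/-- the weighted sum over a range, bounded by the number of primes of degree one -/
lemma TT_sub_le (K : Type) [Field K] [NumberField K] (Y : ℕ) (hY : (discr K).natAbs ≤ Y) :
    TT K (3 * Y) - TT K Y ≤ (Module.finrank ℚ K : ℝ) * Real.log (3 * Y) *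
      ((((Finset.range (3 * Y + 1)).filter fun p => p.Prime ∧ Y < p ∧
        Nonempty (𝓞 K →+* ZMod (p ^ 2))).card : ℕ) : ℝ) := by
  classical
  have h0 : (Finset.range (3 * Y + 1)).filter Nat.Prime =
      (Finset.range (Y + 1)).filter Nat.Prime ∪
        (Finset.range (3 * Y + 1)).filter (fun p => p.Prime ∧ Y < p) := by
    ext p
    simp only [Finset.mem_filter, Finset.mem_range, Finset.mem_union]
    constructor
    · rintro ⟨h1, h2⟩
      rcases Nat.lt_or_ge Y p with h3 | h3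
      · exact Or.inr ⟨h1, h2, h3⟩
      · exact Or.inl ⟨by omega, h2⟩
    · rintro (⟨h1, h2⟩ | ⟨h1, h2, h3⟩)
      · exact ⟨by omega, h2⟩
      · exact ⟨h1, h2⟩
  have hdis : Disjoint ((Finset.range (Y + 1)).filter Nat.Prime)
      ((Finset.range (3 * Y + 1)).filter (fun p => p.Prime ∧ Y < p)) := by
    rw [Finset.disjoint_left]
    intro p h1 h2
    simp only [Finset.mem_filter, Finset.mem_range] at h1 h2
    omega
  have h1 : TT K (3 * Y) - TT K Y =
      ∑ p ∈ (Finset.range (3 * Y + 1)).filter (fun p => p.Prime ∧ Y < p),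
        (Nat.card (𝓞 K →+* ZMod p) : ℝ) * Real.log p := by
    unfold TT
    rw [h0, Finset.sum_union hdis]
    ring
  rw [h1]
  have h2 : ∑ p ∈ (Finset.range (3 * Y + 1)).filter (fun p => p.Prime ∧ Y < p),
        (Nat.card (𝓞 K →+* ZMod p) : ℝ) * Real.log p =
      ∑ p ∈ (Finset.range (3 * Y + 1)).filter (fun p => p.Prime ∧ Y < p ∧
        Nonempty (𝓞 K →+* ZMod (p ^ 2))),
        (Nat.card (𝓞 K →+* ZMod p) : ℝ) * Real.log p := by
    symm
    apply Finset.sum_subset
    · intro p hp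
      simp only [Finset.mem_filter] at hp ⊢
      exact ⟨hp.1, hp.2.1, hp.2.2.1⟩
    · intro p hp hnp
      simp only [Finset.mem_filter] at hp hnp
      have h3 : ¬ Nonempty (𝓞 K →+* ZMod p) := by
        intro h4
        exact hnp ⟨hp.1, hp.2.1, hp.2.2, lift_hom K hp.2.1 (by omega) h4⟩
      have h4 : IsEmpty (𝓞 K →+* ZMod p) := not_nonempty_iff.1 h3
      rw [Nat.card_of_isEmpty]
      simp
  rw [h2]
  have h3 : ∀ p ∈ (Finset.range (3 * Y + 1)).filter (fun p => p.Prime ∧ Y < p ∧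
        Nonempty (𝓞 K →+* ZMod (p ^ 2))),
      (Nat.card (𝓞 K →+* ZMod p) : ℝ) * Real.log p ≤
        (Module.finrank ℚ K : ℝ) * Real.log (3 * Y) := by
    intro p hp
    simp only [Finset.mem_filter, Finset.mem_range] at hp
    have h5 : (0 : ℝ) < p := by exact_mod_cast hp.2.1.pos
    have h6 : (p : ℝ) ≤ 3 * Y := by exact_mod_cast (by omega : p ≤ 3 * Y)
    have h7 : 0 ≤ Real.log p := Real.log_nonneg (by exact_mod_cast hp.2.1.one_lt.le)
    exact mul_le_mul (hc_cast_le hp.2.1) (Real.log_le_log h5 h6) h7 (Nat.cast_nonneg _)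
  calc _ ≤ ∑ p ∈ (Finset.range (3 * Y + 1)).filter (fun p => p.Prime ∧ Y < p ∧
        Nonempty (𝓞 K →+* ZMod (p ^ 2))), (Module.finrank ℚ K : ℝ) * Real.log (3 * Y) :=
        Finset.sum_le_sum h3
    _ = _ := by
        rw [Finset.sum_const, nsmul_eq_mul]
        ring

/-- JOB 5 (job 19 of the table): many primes of degree one. -/
theorem degree_one_primes (K : Type) [Field K] [NumberField K] (U C0 : ℕ) (hU : 1 ≤ U)
    (hC0 : 1 ≤ C0) (ε : ℝ) (hε : 0 < ε) :
    ∀ᶠ t : ℕ in atTop, ∃ s : ℕ, (t : ℝ) ^ (1 - ε) ≤ s ∧ s ≤ t ∧ ∃ Pr : Finset ℕ,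
      C0 * s ^ U ≤ Pr.card * s ∧
      ∀ p ∈ Pr, p.Prime ∧ C0 * s ^ U < p ∧ p ≤ 3 * (C0 * s ^ U) ∧
        Nonempty (𝓞 K →+* ZMod (p ^ 2)) := by
  classical
  set d : ℝ := (Module.finrank ℚ K : ℝ) with hd
  have hd0 : 0 < d := by
    rw [hd]
    exact_mod_cast Module.finrank_pos
  have hY : Tendsto (fun t : ℕ => C0 * t ^ U) atTop atTop := by
    refine tendsto_atTop_mono (fun t => ?_) tendsto_id
    rcases Nat.eq_zero_or_pos t with rfl | ht
    · simp
    · calc id t = t ^ 1 := (pow_one t).symm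
        _ ≤ t ^ U := Nat.pow_le_pow_right ht hU
        _ = 1 * t ^ U := (one_mul _).symm
        _ ≤ C0 * t ^ U := Nat.mul_le_mul_right _ hC0
  have h3Y : Tendsto (fun t : ℕ => 3 * (C0 * t ^ U)) atTop atTop :=
    tendsto_atTop_mono (fun t => by omega) hY
  have hT := TT_tendsto (K := K) (Pool.Agent.H484R2.continuation K)
  have hT1 := (hT.comp hY).eventually (gt_mem_nhds (show (1 : ℝ) < 5 / 4 by norm_num))
  have hT2 := (hT.comp h3Y).eventually (lt_mem_nhds (show (3 / 4 : ℝ) < 1 by norm_num))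
  have hlog : ∀ᶠ t : ℕ in atTop, d * Real.log (3 * ((C0 * t ^ U : ℕ) : ℝ)) ≤ t := by
    have h1 : Tendsto (fun t : ℕ => Real.log (t : ℝ) / t) atTop (𝓝 0) := by
      have := (Real.isLittleO_log_id_atTop.tendsto_div_nhds_zero).comp
        (tendsto_natCast_atTop_atTop (R := ℝ))
      exact this
    have h2 : Tendsto (fun t : ℕ => (1 : ℝ) / t) atTop (𝓝 0) :=
      tendsto_one_div_atTop_nhds_zero_nat
    have h3 : Tendsto (fun t : ℕ => d * Real.log (3 * C0) * (1 / (t : ℝ)) +
        d * U * (Real.log (t : ℝ) / t)) atTop (𝓝 0) := by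
      have := (h2.const_mul (d * Real.log (3 * C0))).add (h1.const_mul (d * U))
      simpa using this
    have h4 := h3.eventually (gt_mem_nhds (show (0 : ℝ) < 1 by norm_num))
    filter_upwards [h4, eventually_gt_atTop 0] with t ht ht0
    have ht1 : (0 : ℝ) < t := by exact_mod_cast ht0
    have hC : (0 : ℝ) < C0 := by exact_mod_cast hC0
    have h5 : Real.log (3 * ((C0 * t ^ U : ℕ) : ℝ)) = Real.log (3 * C0) + U * Real.log t := by
      push_cast
      rw [← mul_assoc, Real.log_mul (by positivity) (by positivity), Real.log_pow]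
    rw [h5]
    have h6 : d * Real.log (3 * C0) * (1 / (t : ℝ)) + d * U * (Real.log (t : ℝ) / t) =
        (d * (Real.log (3 * C0) + U * Real.log t)) / t := by
      field_simp
    rw [h6, div_lt_one ht1] at ht
    exact ht.le
  filter_upwards [hT1, hT2, hlog, hY.eventually_ge_atTop (discr K).natAbs,
    eventually_ge_atTop 1] with t h1 h2 h3 h4 h5
  set Y : ℕ := C0 * t ^ U with hYdef
  have hY0 : 0 < Y := Nat.mul_pos hC0 (pow_pos h5 U)
  have hY1 : (0 : ℝ) < Y := by exact_mod_cast hY0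
  refine ⟨t, ?_, le_rfl, (Finset.range (3 * Y + 1)).filter fun p => p.Prime ∧ Y < p ∧
        Nonempty (𝓞 K →+* ZMod (p ^ 2)), ?_, ?_⟩
  · have ht1 : (1 : ℝ) ≤ t := by exact_mod_cast h5
    calc (t : ℝ) ^ (1 - ε) ≤ (t : ℝ) ^ (1 : ℝ) :=
          Real.rpow_le_rpow_of_exponent_le ht1 (by linarith)
      _ = t := Real.rpow_one _
  · have h6 := TT_sub_le K Y h4
    have h1a : TT K Y / (Y : ℝ) < 5 / 4 := h1
    have h2a : 3 / 4 < TT K (3 * Y) / ((3 * Y : ℕ) : ℝ) := h2
    rw [div_lt_iff₀ hY1] at h1a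
    rw [lt_div_iff₀ (by push_cast; positivity), Nat.cast_mul] at h2a
    norm_num at h2a
    set N : ℕ := ((Finset.range (3 * Y + 1)).filter fun p => p.Prime ∧ Y < p ∧
        Nonempty (𝓞 K →+* ZMod (p ^ 2))).card with hN
    have h7 : (Y : ℝ) ≤ d * Real.log (3 * Y) * N := by linarith
    have h8 : d * Real.log (3 * Y) * N ≤ t * N :=
      mul_le_mul_of_nonneg_right h3 (Nat.cast_nonneg _)
    have h9 : (Y : ℝ) ≤ N * t := by linarith
    exact_mod_cast h9
  · intro p hp
    simp only [Finset.mem_filter, Finset.mem_range] at hp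
    exact ⟨hp.2.1, hp.2.2.1, by omega, hp.2.2.2⟩

end Pool.Agent.L5helper85.NfLow
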